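import Mathlib

/-!
No infinite dimensional reflexive space embeds into `C(L)` for a countable compact space `L`
(Baire category in the weakly compact unit ball).
-/

set_option autoImplicit false

namespace MP052
open NormedSpace Set Filter Topology

theorem exists_mem_kers {Y : Type*} [NormedAddCommGroup Y] [NormedSpace ℝ Y]
    (hinf : ¬ FiniteDimensional ℝ Y) (I : Finset (StrongDual ℝ Y)) :
    ∃ w : Y, w ≠ 0 ∧ ∀ a ∈ I, a w = 0 := by
  classical
  by_contra hcon
  push Not at hcon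
  apply hinf
  let F : Y →ₗ[ℝ] (I → ℝ) := LinearMap.pi (fun a => (a.1 : Y →ₗ[ℝ] ℝ))
  have hF : Function.Injective F := by
    rw [← LinearMap.ker_eq_bot, LinearMap.ker_eq_bot']
    intro w hw
    by_contra hne
    obtain ⟨a, ha, haw⟩ := hcon w hne
    exact haw (congrFun hw ⟨a, ha⟩)
  exact Module.Finite.of_injective F hF

theorem no_reflexive_into_C_countable (L : Type*) [TopologicalSpace L] [CompactSpace L]
    [Countable L] (Y : Type*) [NormedAddCommGroup Y] [NormedSpace ℝ Y]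
    (hinf : ¬ FiniteDimensional ℝ Y)
    (hrefl : Function.Surjective (inclusionInDoubleDual ℝ Y))
    (T : Y →L[ℝ] C(L, ℝ)) (c : ℝ) (hc : 0 < c) (hT : ∀ y, c * ‖y‖ ≤ ‖T y‖) : False := by
  classical
  -- L is nonempty
  have hLne : Nonempty L := by
    by_contra hL
    rw [not_nonempty_iff] at hL
    obtain ⟨w, hw, -⟩ := exists_mem_kers hinf ∅
    have h0 : T w = 0 := by
      ext t
      exact hL.elim t
    have h1 := hT w
    rw [h0, norm_zero] at h1
    have h2 : 0 < ‖w‖ := norm_pos_iff.mpr hw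
    have : 0 < c * ‖w‖ := mul_pos hc h2
    linarith
  -- the evaluations
  let e : L → StrongDual ℝ Y := fun s => (ContinuousMap.evalCLM ℝ s).comp T
  have he : ∀ s y, e s y = T y s := fun s y => rfl
  let W := WeakDual ℝ (StrongDual ℝ Y)
  let ev : Y → W := fun y => StrongDual.toWeakDual (inclusionInDoubleDual ℝ Y y)
  have hev : ∀ y (a : StrongDual ℝ Y), (ev y) a = a y := fun y a => rfl
  have hsurj : ∀ Φ : W, ∃ y, ev y = Φ := by
    intro Φ
    obtain ⟨y, hy⟩ := hrefl (WeakDual.toStrongDual Φ)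
    refine ⟨y, ?_⟩
    show StrongDual.toWeakDual (inclusionInDoubleDual ℝ Y y) = Φ
    rw [hy]
    rfl
  let B : Set W := {Φ | ∀ s, |Φ (e s)| ≤ 1}
  have hBmem : ∀ y, ev y ∈ B ↔ ‖T y‖ ≤ 1 := by
    intro y
    rw [ContinuousMap.norm_le _ zero_le_one]
    exact Iff.rfl
  have hBcl : IsClosed B := by
    have : B = ⋂ s, {Φ : W | |Φ (e s)| ≤ 1} := by
      ext Φ
      simp [B]
    rw [this]
    refine isClosed_iInter fun s => ?_
    exact isClosed_le ((WeakDual.eval_continuous (e s)).abs) continuous_const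
  have hBsub : B ⊆ WeakDual.toStrongDual ⁻¹' Metric.closedBall (0 : StrongDual ℝ (StrongDual ℝ Y)) (1 / c) := by
    intro Φ hΦ
    obtain ⟨y, rfl⟩ := hsurj Φ
    have h1 : ‖T y‖ ≤ 1 := (hBmem y).mp hΦ
    have h2 : ‖y‖ ≤ 1 / c := by
      rw [le_div_iff₀ hc]
      have := hT y
      linarith
    show WeakDual.toStrongDual (ev y) ∈ Metric.closedBall (0 : StrongDual ℝ (StrongDual ℝ Y)) (1 / c)
    exact (mem_closedBall_zero_iff (E := StrongDual ℝ (StrongDual ℝ Y))).mpr
      (le_trans (double_dual_bound ℝ Y y) h2)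
  have hBcomp : IsCompact B :=
    (WeakDual.isCompact_closedBall (𝕜 := ℝ) (E := StrongDual ℝ Y) 0 (1 / c)).of_isClosed_subset hBcl hBsub
  have : CompactSpace B := isCompact_iff_compactSpace.mp hBcomp
  have h0B : ev 0 ∈ B := by
    rw [hBmem, map_zero, norm_zero]
    exact zero_le_one
  have : Nonempty B := ⟨⟨ev 0, h0B⟩⟩
  -- the Baire cover
  let f : L → Set B := fun t => {Φ | ∀ s, |Φ.1 (e s)| ≤ |Φ.1 (e t)|}
  have hfcl : ∀ t, IsClosed (f t) := by
    intro t
    have : f t = ⋂ s, {Φ : B | |Φ.1 (e s)| ≤ |Φ.1 (e t)|} := by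
      ext Φ
      simp [f]
    rw [this]
    refine isClosed_iInter fun s => ?_
    exact isClosed_le (((WeakDual.eval_continuous (e s)).comp continuous_subtype_val).abs)
      (((WeakDual.eval_continuous (e t)).comp continuous_subtype_val).abs)
  have hfun : (⋃ t, f t) = univ := by
    rw [eq_univ_iff_forall]
    rintro ⟨Φ, hΦ⟩
    obtain ⟨y, rfl⟩ := hsurj Φ
    obtain ⟨t, -, ht⟩ := (isCompact_univ (X := L)).exists_isMaxOn univ_nonempty
      ((T y).continuous.abs.continuousOn)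
    rw [mem_iUnion]
    exact ⟨t, fun s => ht (mem_univ s)⟩
  obtain ⟨t, ht⟩ := nonempty_interior_of_iUnion_of_closed hfcl hfun
  obtain ⟨Φ0, hΦ0⟩ := ht
  obtain ⟨V, hVopen, hV⟩ := isOpen_induced_iff.mp (isOpen_interior (s := f t))
  have hVf : ∀ Φ : B, Φ.1 ∈ V → Φ ∈ f t := by
    intro Φ hΦ
    apply interior_subset
    rw [← hV]
    exact hΦ
  have hΦ0V : Φ0.1 ∈ V := by
    have : Φ0 ∈ Subtype.val ⁻¹' V := by
      rw [hV]
      exact hΦ0
    exact this
  obtain ⟨y0, hy0⟩ := hsurj Φ0.1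
  have hy0B : ‖T y0‖ ≤ 1 := by
    rw [← hBmem, hy0]
    exact Φ0.2
  -- shrink
  have hcont : Continuous (fun δ : ℝ => ev ((1 - δ) • y0)) := by
    apply WeakDual.continuous_of_continuous_eval
    intro a
    have : (fun δ : ℝ => (ev ((1 - δ) • y0)) a) = fun δ : ℝ => (1 - δ) * a y0 := by
      funext δ
      rw [hev, map_smul, smul_eq_mul]
    rw [this]
    fun_prop
  have hV0 : ∀ᶠ δ in 𝓝[>] (0 : ℝ), ev ((1 - δ) • y0) ∈ V := by
    have h1 : ev ((1 - (0 : ℝ)) • y0) ∈ V := by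
      rw [sub_zero, one_smul, hy0]
      exact hΦ0V
    exact (hcont.continuousAt.eventually (hVopen.mem_nhds h1)).filter_mono nhdsWithin_le_nhds
  have hlt : ∀ᶠ δ in 𝓝[>] (0 : ℝ), δ ∈ Ioo (0 : ℝ) 1 := Ioo_mem_nhdsGT zero_lt_one
  obtain ⟨δ, hδV, hδ0, hδ1⟩ := (hV0.and hlt).exists
  set y1 : Y := (1 - δ) • y0 with hy1
  have hy1n : ‖T y1‖ < 1 := by
    rw [hy1, map_smul, norm_smul, Real.norm_eq_abs, abs_of_pos (by linarith)]
    calc (1 - δ) * ‖T y0‖ ≤ (1 - δ) * 1 := mul_le_mul_of_nonneg_left hy0B (by linarith)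
      _ < 1 := by linarith
  -- basic neighbourhood
  obtain ⟨V', hV'open, hV'⟩ := isOpen_induced_iff.mp hVopen
  have hmemV : ∀ Φ : W, Φ ∈ V ↔ (fun a : StrongDual ℝ Y => Φ a) ∈ V' := by
    intro Φ
    rw [← hV']
    rfl
  obtain ⟨I, u, hu, hIu⟩ := isOpen_pi_iff.mp hV'open _ ((hmemV _).mp hδV)
  obtain ⟨w, hw0, hw⟩ := exists_mem_kers hinf (insert (e t) I)
  have hwt : T w t = 0 := hw _ (Finset.mem_insert_self _ _)
  have hwI : ∀ a ∈ I, a w = 0 := fun a ha => hw a (Finset.mem_insert_of_mem ha)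
  have hTw : 0 < ‖T w‖ := lt_of_lt_of_le (mul_pos hc (norm_pos_iff.mpr hw0)) (hT w)
  -- choose s
  have hS : (1 : ℝ) ∈ Icc (‖T (y1 + (0 : ℝ) • w)‖) (‖T (y1 + (2 / ‖T w‖) • w)‖) := by
    constructor
    · rw [zero_smul, add_zero]
      exact hy1n.le
    · have h1 : ‖T ((2 / ‖T w‖) • w)‖ = 2 := by
        rw [map_smul, norm_smul, Real.norm_eq_abs, abs_of_pos (by positivity)]
        field_simp
      have h2 : ‖T ((2 / ‖T w‖) • w)‖ ≤ ‖T (y1 + (2 / ‖T w‖) • w)‖ + ‖T y1‖ := by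
        have : T ((2 / ‖T w‖) • w) = T (y1 + (2 / ‖T w‖) • w) - T y1 := by
          rw [map_add]
          abel
        rw [this]
        exact norm_sub_le _ _
      linarith
  have hScont : ContinuousOn (fun s : ℝ => ‖T (y1 + s • w)‖) (Icc 0 (2 / ‖T w‖)) := by
    apply Continuous.continuousOn
    fun_prop
  obtain ⟨s, -, hs⟩ := intermediate_value_Icc (by positivity) hScont hS
  simp only at hs
  have hmem : ev (y1 + s • w) ∈ B := by
    rw [hBmem]
    exact hs.le
  have hmem2 : ev (y1 + s • w) ∈ V := by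
    rw [hmemV]
    apply hIu
    intro a ha
    have : (ev (y1 + s • w)) a = (ev y1) a := by
      rw [hev, hev, map_add, map_smul a s w, hwI a ha, smul_zero, add_zero]
    show (ev (y1 + s • w)) a ∈ u a
    rw [this]
    exact (hu a ha).2
  have hfin := hVf ⟨_, hmem⟩ hmem2
  have hkey : ‖T (y1 + s • w)‖ ≤ ‖T y1‖ := by
    rw [ContinuousMap.norm_le _ (norm_nonneg _)]
    intro r
    have h1 : |T (y1 + s • w) r| ≤ |T (y1 + s • w) t| := hfin r
    have h2 : T (y1 + s • w) t = T y1 t := by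
      rw [map_add, map_smul]
      simp [hwt]
    rw [Real.norm_eq_abs]
    calc |T (y1 + s • w) r| ≤ |T (y1 + s • w) t| := h1
      _ = ‖T y1 t‖ := by rw [h2, Real.norm_eq_abs]
      _ ≤ ‖T y1‖ := (T y1).norm_coe_le_norm t
  rw [hs] at hkey
  linarith

end MP052
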