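import Mathlib

/-!
A Banach space with a sequence `g` with dense span whose norm is equivalent, on finite combinations,
to a lattice norm `Nn` of the coefficients without bounded non-Cauchy partial sums, and whose dual is
separable, is reflexive (James).
-/

set_option autoImplicit false

namespace MP052
open NormedSpace Set Filter Topology TopologicalSpace

section
variable {Y : Type*} [NormedAddCommGroup Y] [NormedSpace ℝ Y]

/-- the norm of `Y` on finite combinations of `g` is equivalent to the lattice norm `Nn`. -/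
structure LatNorm (g : ℕ → Y) (Nn : (ℕ →₀ ℝ) → ℝ) (c C : ℝ) : Prop where
  hc : 0 < c
  hlow : ∀ a, c * Nn a ≤ ‖Finsupp.linearCombination ℝ g a‖
  hup : ∀ a, ‖Finsupp.linearCombination ℝ g a‖ ≤ C * Nn a
  hmono : ∀ a b : ℕ →₀ ℝ, (∀ k, |a k| ≤ |b k|) → Nn a ≤ Nn b
  hone : ∀ k, 1 ≤ Nn (Finsupp.single k 1)
  hsmul : ∀ (r : ℝ) (a : ℕ →₀ ℝ), Nn (r • a) = |r| * Nn a

namespace LatNorm

variable {g : ℕ → Y} {Nn : (ℕ →₀ ℝ) → ℝ} {c C : ℝ}

theorem coord_le (h : LatNorm g Nn c C) (a : ℕ →₀ ℝ) (k : ℕ) : |a k| ≤ Nn a := by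
  have h1 : Nn ((a k) • Finsupp.single k 1) ≤ Nn a := by
    apply h.hmono
    intro j
    by_cases hj : j = k
    · subst hj
      simp
    · simp [Ne.symm hj]
  rw [h.hsmul] at h1
  have h2 := h.hone k
  have h3 : |a k| * 1 ≤ |a k| * Nn (Finsupp.single k 1) :=
    mul_le_mul_of_nonneg_left h2 (abs_nonneg _)
  linarith

theorem nonneg (h : LatNorm g Nn c C) (a : ℕ →₀ ℝ) : 0 ≤ Nn a :=
  le_trans (abs_nonneg _) (h.coord_le a 0)

theorem c_le_C (h : LatNorm g Nn c C) : c ≤ C := by
  have h1 := h.hlow (Finsupp.single 0 1)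
  have h2 := h.hup (Finsupp.single 0 1)
  have h3 := h.hone 0
  by_contra hcon
  push Not at hcon
  have : C * Nn (Finsupp.single 0 1) < c * Nn (Finsupp.single 0 1) :=
    mul_lt_mul_of_pos_right hcon (by linarith)
  linarith

theorem C_pos (h : LatNorm g Nn c C) : 0 < C := lt_of_lt_of_le h.hc h.c_le_C

theorem le_div (h : LatNorm g Nn c C) (a : ℕ →₀ ℝ) :
    Nn a ≤ ‖Finsupp.linearCombination ℝ g a‖ / c := by
  rw [le_div_iff₀ h.hc]
  have := h.hlow a
  linarith

theorem injective (h : LatNorm g Nn c C) : Function.Injective (Finsupp.linearCombination ℝ g) := by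
  rw [← LinearMap.ker_eq_bot, LinearMap.ker_eq_bot']
  intro a ha
  have h1 := h.le_div a
  rw [ha, norm_zero, zero_div] at h1
  ext k
  have h2 := h.coord_le a k
  have h3 : |a k| ≤ 0 := le_trans h2 h1
  simpa using h3

theorem exists_functional (h : LatNorm g Nn c C) (t : ℕ → ℝ) (K : ℝ) (hK : 0 ≤ K)
    (ht : ∀ a : ℕ →₀ ℝ, |Finsupp.linearCombination ℝ t a| ≤ K * ‖Finsupp.linearCombination ℝ g a‖) :
    ∃ φ : StrongDual ℝ Y, (∀ k, φ (g k) = t k) ∧ ‖φ‖ ≤ K := by
  let S := Finsupp.linearCombination ℝ g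
  let p := LinearMap.range S
  let eqv : (ℕ →₀ ℝ) ≃ₗ[ℝ] p := LinearEquiv.ofInjective S h.injective
  have heqv : ∀ a, ((eqv a : p) : Y) = S a := fun a => rfl
  let f0 : p →ₗ[ℝ] ℝ := (Finsupp.linearCombination ℝ t).comp (eqv.symm : p →ₗ[ℝ] (ℕ →₀ ℝ))
  have hf0 : ∀ a, f0 (eqv a) = Finsupp.linearCombination ℝ t a := by
    intro a
    simp [f0]
  let f : StrongDual ℝ p := f0.mkContinuous K (by
    intro x
    obtain ⟨a, rfl⟩ := eqv.surjective x
    rw [hf0, Real.norm_eq_abs]
    exact ht a)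
  have hfn : ‖f‖ ≤ K := LinearMap.mkContinuous_norm_le _ hK _
  obtain ⟨φ, hφ, hn⟩ := exists_extension_norm_eq p f
  refine ⟨φ, ?_, by rw [hn]; exact hfn⟩
  intro k
  have h1 : g k = ((eqv (Finsupp.single k 1) : p) : Y) := by
    rw [heqv]
    simp [S]
  rw [h1, hφ]
  show f0 (eqv (Finsupp.single k 1)) = t k
  rw [hf0]
  simp

theorem apply_comb (φ : StrongDual ℝ Y) (a : ℕ →₀ ℝ) :
    φ (Finsupp.linearCombination ℝ g a) = Finsupp.linearCombination ℝ (fun k => φ (g k)) a := by
  have := Finsupp.apply_linearCombination ℝ (φ : Y →ₗ[ℝ] ℝ) g a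
  exact this

theorem comb_filter (t : ℕ → ℝ) (E : Set ℕ) [DecidablePred (· ∈ E)] (a : ℕ →₀ ℝ) :
    Finsupp.linearCombination ℝ (fun k => if k ∈ E then t k else 0) a =
      Finsupp.linearCombination ℝ t (a.filter (· ∈ E)) := by
  rw [Finsupp.linearCombination_apply, Finsupp.linearCombination_apply]
  rw [Finsupp.sum_of_support_subset (a.filter (· ∈ E)) (s := a.support)
    (by rw [Finsupp.support_filter]; exact Finset.filter_subset _ _) _ (by simp)]
  rw [Finsupp.sum]
  apply Finset.sum_congr rfl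
  intro k _
  by_cases hk : k ∈ E
  · simp [hk]
  · simp [hk]

theorem filter_le (h : LatNorm g Nn c C) (E : Set ℕ) [DecidablePred (· ∈ E)] (a : ℕ →₀ ℝ) :
    Nn (a.filter (· ∈ E)) ≤ Nn a := by
  apply h.hmono
  intro k
  by_cases hk : k ∈ E
  · simp [hk]
  · simp [hk]

theorem exists_trunc (h : LatNorm g Nn c C) (φ : StrongDual ℝ Y) (E : Set ℕ)
    [DecidablePred (· ∈ E)] :
    ∃ ψ : StrongDual ℝ Y, (∀ k, ψ (g k) = if k ∈ E then φ (g k) else 0) ∧
      ‖ψ‖ ≤ C / c * ‖φ‖ := by
  apply h.exists_functional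
  · exact mul_nonneg (div_nonneg h.C_pos.le h.hc.le) (norm_nonneg _)
  · intro a
    rw [comb_filter (fun k => φ (g k)), ← apply_comb, ← Real.norm_eq_abs]
    calc ‖φ (Finsupp.linearCombination ℝ g (a.filter (· ∈ E)))‖
        ≤ ‖φ‖ * ‖Finsupp.linearCombination ℝ g (a.filter (· ∈ E))‖ := φ.le_opNorm _
      _ ≤ ‖φ‖ * (C * Nn (a.filter (· ∈ E))) :=
          mul_le_mul_of_nonneg_left (h.hup _) (norm_nonneg _)
      _ ≤ ‖φ‖ * (C * Nn a) :=
          mul_le_mul_of_nonneg_left (mul_le_mul_of_nonneg_left (h.filter_le E a) h.C_pos.le)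
            (norm_nonneg _)
      _ ≤ ‖φ‖ * (C * (‖Finsupp.linearCombination ℝ g a‖ / c)) :=
          mul_le_mul_of_nonneg_left (mul_le_mul_of_nonneg_left (h.le_div a) h.C_pos.le)
            (norm_nonneg _)
      _ = C / c * ‖φ‖ * ‖Finsupp.linearCombination ℝ g a‖ := by ring

end LatNorm

theorem functional_ext {g : ℕ → Y} (hd : (Submodule.span ℝ (range g)).topologicalClosure = ⊤)
    (φ ψ : StrongDual ℝ Y) (h : ∀ k, φ (g k) = ψ (g k)) : φ = ψ := by
  apply ContinuousLinearMap.ext_on (s := range g)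
  · rw [Submodule.dense_iff_topologicalClosure_eq_top]
    exact hd
  · rintro _ ⟨k, rfl⟩
    exact h k

/-- no separable metric space has a family of points indexed by `Set ℕ` with mutual distances
at least `η > 0`. -/
theorem not_separated_family {Z : Type*} [NormedAddCommGroup Z] [SeparableSpace Z]
    (F : Set ℕ → Z) (η : ℝ) (hη : 0 < η) (hF : ∀ E E', E ≠ E' → η ≤ ‖F E - F E'‖) : False := by
  have hdis : (univ : Set (Set ℕ)).PairwiseDisjoint (fun E => Metric.ball (F E) (η / 2)) := by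
    intro E _ E' _ hne
    apply Metric.ball_disjoint_ball
    rw [dist_eq_norm]
    have := hF E E' hne
    linarith
  have hcount : (univ : Set (Set ℕ)).Countable :=
    hdis.countable_of_isOpen (fun _ _ => Metric.isOpen_ball)
      (fun E _ => ⟨F E, Metric.mem_ball_self (by linarith)⟩)
  have : Countable (Set ℕ) := countable_univ_iff.mp hcount
  obtain ⟨f, hf⟩ := exists_surjective_nat (Set ℕ)
  exact Function.cantor_surjective f hf

namespace LatNorm
variable {g : ℕ → Y} {Nn : (ℕ →₀ ℝ) → ℝ} {c C : ℝ}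

theorem exists_coord (h : LatNorm g Nn c C) (k : ℕ) :
    ∃ φ : StrongDual ℝ Y, (∀ j, φ (g j) = if j = k then 1 else 0) := by
  obtain ⟨φ, h1, -⟩ := h.exists_functional (fun j => if j = k then 1 else 0) (1 / c)
    (by have := h.hc; positivity) (by
      intro a
      have : Finsupp.linearCombination ℝ (fun j => if j = k then (1 : ℝ) else 0) a = a k := by
        rw [Finsupp.linearCombination_apply, Finsupp.sum]
        simp only [smul_eq_mul, mul_ite, mul_one, mul_zero]
        rw [Finset.sum_ite_eq' a.support k]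
        by_cases hk : k ∈ a.support
        · simp [hk]
        · rw [if_neg hk]
          simpa using (Finsupp.notMem_support_iff.mp hk).symm
      rw [this]
      calc |a k| ≤ Nn a := h.coord_le a k
        _ ≤ ‖Finsupp.linearCombination ℝ g a‖ / c := h.le_div a
        _ = 1 / c * ‖Finsupp.linearCombination ℝ g a‖ := by ring)
  exact ⟨φ, h1⟩

/-- coordinate functionals -/
noncomputable def estar (h : LatNorm g Nn c C) (k : ℕ) : StrongDual ℝ Y := (h.exists_coord k).choose

theorem estar_apply (h : LatNorm g Nn c C) (k j : ℕ) :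
    h.estar k (g j) = if j = k then 1 else 0 := (h.exists_coord k).choose_spec j

/-- the head of a functional -/
theorem head_apply (h : LatNorm g Nn c C) (φ : StrongDual ℝ Y) (n j : ℕ) :
    (∑ k ∈ Finset.range n, φ (g k) • h.estar k) (g j) = if j < n then φ (g j) else 0 := by
  rw [sum_apply]
  simp only [smul_apply, estar_apply, smul_eq_mul, mul_ite, mul_one, mul_zero]
  rw [Finset.sum_ite_eq (Finset.range n) j]
  simp

/-- if `φ` is at positive distance from the span of the coordinate functionals it is large on tails -/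
theorem exists_tail (h : LatNorm g Nn c C)
    (hd : (Submodule.span ℝ (range g)).topologicalClosure = ⊤)
    (φ : StrongDual ℝ Y) (δ : ℝ) (hδ : 0 < δ)
    (hφ : ∀ ψ ∈ Submodule.span ℝ (range h.estar), δ ≤ ‖φ - ψ‖) (n : ℕ) :
    ∃ u : ℕ →₀ ℝ, (∀ k < n, u k = 0) ∧ Nn u ≤ 1 / c ∧
      δ / 2 ≤ φ (Finsupp.linearCombination ℝ g u) := by
  classical
  set φn : StrongDual ℝ Y := ∑ k ∈ Finset.range n, φ (g k) • h.estar k with hφn
  have hmem : φn ∈ Submodule.span ℝ (range h.estar) := by
    apply Submodule.sum_mem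
    intro k _
    exact Submodule.smul_mem _ _ (Submodule.subset_span ⟨k, rfl⟩)
  have hval : ∀ j, (φ - φn) (g j) = if n ≤ j then φ (g j) else 0 := by
    intro j
    rw [sub_apply, hφn, head_apply]
    by_cases hj : j < n
    · simp [hj]
    · simp [hj, not_lt.mp hj]
  have hex : ∃ a : ℕ →₀ ℝ, δ / 2 * ‖Finsupp.linearCombination ℝ g a‖ <
      |(φ - φn) (Finsupp.linearCombination ℝ g a)| := by
    by_contra hcon
    push Not at hcon
    obtain ⟨ψ, hψ, hψn⟩ := h.exists_functional (fun k => (φ - φn) (g k)) (δ / 2) (by linarith) (by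
      intro a
      rw [← apply_comb]
      exact hcon a)
    have : ψ = φ - φn := functional_ext hd _ _ hψ
    rw [this] at hψn
    have := hφ φn hmem
    linarith
  obtain ⟨a, ha⟩ := hex
  have hSa : 0 < ‖Finsupp.linearCombination ℝ g a‖ := by
    rcases (norm_nonneg (Finsupp.linearCombination ℝ g a)).eq_or_lt with h0 | h0
    · exfalso
      rw [← h0] at ha
      have h1 : Finsupp.linearCombination ℝ g a = 0 := norm_eq_zero.mp h0.symm
      rw [h1] at ha
      simp at ha
    · exact h0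
  -- scale
  obtain ⟨r, hr, hr2⟩ : ∃ r : ℝ, |r| = 1 / ‖Finsupp.linearCombination ℝ g a‖ ∧
      δ / 2 ≤ r * (φ - φn) (Finsupp.linearCombination ℝ g a) := by
    rcases le_or_gt 0 ((φ - φn) (Finsupp.linearCombination ℝ g a)) with h0 | h0
    · refine ⟨1 / ‖Finsupp.linearCombination ℝ g a‖, abs_of_pos (by positivity), ?_⟩
      rw [abs_of_nonneg h0] at ha
      rw [one_div, inv_mul_eq_div, le_div_iff₀ hSa]
      exact ha.le
    · refine ⟨-(1 / ‖Finsupp.linearCombination ℝ g a‖), ?_, ?_⟩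
      · rw [abs_neg]
        exact abs_of_pos (by positivity)
      · rw [abs_of_neg h0] at ha
        rw [one_div, neg_mul, inv_mul_eq_div, ← neg_div, le_div_iff₀ hSa]
        exact ha.le
  set b : ℕ →₀ ℝ := r • a with hb
  have hSb : ‖Finsupp.linearCombination ℝ g b‖ = 1 := by
    rw [hb, map_smul, norm_smul, Real.norm_eq_abs, hr]
    field_simp
  have hφb : δ / 2 ≤ (φ - φn) (Finsupp.linearCombination ℝ g b) := by
    rw [hb, map_smul, map_smul, smul_eq_mul]
    exact hr2
  refine ⟨b.filter (· ∈ {j | n ≤ j}), ?_, ?_, ?_⟩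
  · intro k hk
    rw [Finsupp.filter_apply_neg]
    simpa using hk
  · calc Nn (b.filter (· ∈ {j | n ≤ j})) ≤ Nn b := h.filter_le _ b
      _ ≤ ‖Finsupp.linearCombination ℝ g b‖ / c := h.le_div b
      _ = 1 / c := by rw [hSb]
  · have : (φ - φn) (Finsupp.linearCombination ℝ g b) =
        φ (Finsupp.linearCombination ℝ g (b.filter (· ∈ {j | n ≤ j}))) := by
      rw [apply_comb, apply_comb, ← comb_filter (fun k => φ (g k)) {j | n ≤ j} b]
      congr 2
      funext j
      rw [hval j]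
      rfl
    rw [← this]
    exact hφb

theorem shrinking (h : LatNorm g Nn c C) [SeparableSpace (StrongDual ℝ Y)]
    (hd : (Submodule.span ℝ (range g)).topologicalClosure = ⊤) :
    (Submodule.span ℝ (range h.estar)).topologicalClosure = ⊤ := by
  classical
  by_contra hcon
  obtain ⟨φ, hφ⟩ : ∃ φ : StrongDual ℝ Y, φ ∉ (Submodule.span ℝ (range h.estar)).topologicalClosure := by
    by_contra hall
    push Not at hall
    exact hcon (Submodule.eq_top_iff'.mpr hall)
  obtain ⟨δ, hδ, hφδ⟩ : ∃ δ > 0, ∀ ψ ∈ Submodule.span ℝ (range h.estar), δ ≤ ‖φ - ψ‖ := by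
    have h1 : φ ∉ closure ((Submodule.span ℝ (range h.estar) : Submodule ℝ (StrongDual ℝ Y)) :
      Set (StrongDual ℝ Y)) := hφ
    rw [Metric.mem_closure_iff] at h1
    push Not at h1
    obtain ⟨δ, hδ, h2⟩ := h1
    refine ⟨δ, hδ, fun ψ hψ => ?_⟩
    rw [← dist_eq_norm]
    exact h2 ψ hψ
  choose u hu0 huN huφ using h.exists_tail hd φ δ hδ hφδ
  let nn : ℕ → ℕ := fun i => Nat.rec 0 (fun _ n => max (n + 1) ((u n).support.sup id + 1)) i
  have hnn : ∀ i, nn (i + 1) = max (nn i + 1) ((u (nn i)).support.sup id + 1) := fun i => rfl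
  have hmono : StrictMono nn := by
    apply strictMono_nat_of_lt_succ
    intro i
    rw [hnn]
    exact lt_of_lt_of_le (Nat.lt_succ_self _) (le_max_left _ _)
  let U : ℕ → (ℕ →₀ ℝ) := fun i => u (nn i)
  have hUsupp : ∀ i, ∀ k ∈ (U i).support, nn i ≤ k ∧ k < nn (i + 1) := by
    intro i k hk
    constructor
    · by_contra hlt
      push Not at hlt
      exact (Finsupp.mem_support_iff.mp hk) (hu0 (nn i) k hlt)
    · rw [hnn]
      have h1 : k ≤ (u (nn i)).support.sup id := Finset.le_sup (f := id) hk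
      exact lt_of_lt_of_le (Nat.lt_succ_of_le h1) (le_max_right _ _)
  have hEset : ∀ (E : Set ℕ) i, ∀ k ∈ (U i).support,
      (k ∈ (⋃ j ∈ E, Ico (nn j) (nn (j + 1)))) ↔ i ∈ E := by
    intro E i k hk
    obtain ⟨hk1, hk2⟩ := hUsupp i k hk
    constructor
    · intro hmem
      rw [mem_iUnion₂] at hmem
      obtain ⟨j, hj, hkj⟩ := hmem
      have h1 : nn i < nn (j + 1) := lt_of_le_of_lt hk1 hkj.2
      have h2 : nn j < nn (i + 1) := lt_of_le_of_lt hkj.1 hk2
      have h3 : i < j + 1 := (hmono.lt_iff_lt (a := i) (b := j + 1)).mp h1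
      have h4 : j < i + 1 := (hmono.lt_iff_lt (a := j) (b := i + 1)).mp h2
      have : i = j := by omega
      rw [this]
      exact hj
    · intro hi
      rw [mem_iUnion₂]
      exact ⟨i, hi, hk1, hk2⟩
  choose Φ hΦ using fun E : Set ℕ => h.exists_trunc φ (⋃ j ∈ E, Ico (nn j) (nn (j + 1)))
  have hΦU : ∀ (E : Set ℕ) i, Φ E (Finsupp.linearCombination ℝ g (U i)) =
      if i ∈ E then φ (Finsupp.linearCombination ℝ g (U i)) else 0 := by
    intro E i
    rw [apply_comb, Finsupp.linearCombination_apply, Finsupp.sum]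
    by_cases hi : i ∈ E
    · rw [if_pos hi, apply_comb, Finsupp.linearCombination_apply, Finsupp.sum]
      apply Finset.sum_congr rfl
      intro k hk
      rw [(hΦ E).1 k, if_pos ((hEset E i k hk).mpr hi)]
    · rw [if_neg hi]
      apply Finset.sum_eq_zero
      intro k hk
      rw [(hΦ E).1 k, if_neg (fun hmem => hi ((hEset E i k hk).mp hmem)), smul_zero]
  have hCc : 0 < C / c := div_pos h.C_pos h.hc
  have key : ∀ E E' : Set ℕ, ∀ i, i ∈ E → i ∉ E' → δ / 2 / (C / c) ≤ ‖Φ E - Φ E'‖ := by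
    intro E E' i hi hi'
    rw [div_le_iff₀ hCc]
    have h1 : (Φ E - Φ E') (Finsupp.linearCombination ℝ g (U i)) =
        φ (Finsupp.linearCombination ℝ g (U i)) := by
      rw [sub_apply, hΦU, hΦU, if_pos hi, if_neg hi', sub_zero]
    have h2 : ‖Finsupp.linearCombination ℝ g (U i)‖ ≤ C / c := by
      calc ‖Finsupp.linearCombination ℝ g (U i)‖ ≤ C * Nn (U i) := h.hup _
        _ ≤ C * (1 / c) := mul_le_mul_of_nonneg_left (huN _) h.C_pos.le
        _ = C / c := by ring
    calc δ / 2 ≤ φ (Finsupp.linearCombination ℝ g (U i)) := huφ _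
      _ = (Φ E - Φ E') (Finsupp.linearCombination ℝ g (U i)) := h1.symm
      _ ≤ ‖(Φ E - Φ E') (Finsupp.linearCombination ℝ g (U i))‖ := Real.le_norm_self _
      _ ≤ ‖Φ E - Φ E'‖ * ‖Finsupp.linearCombination ℝ g (U i)‖ := (Φ E - Φ E').le_opNorm _
      _ ≤ ‖Φ E - Φ E'‖ * (C / c) := mul_le_mul_of_nonneg_left h2 (norm_nonneg _)
  apply not_separated_family Φ (δ / 2 / (C / c)) (by positivity)
  intro E E' hne
  have : ∃ i, ¬ (i ∈ E ↔ i ∈ E') := by
    by_contra hall
    push Not at hall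
    exact hne (Set.ext hall)
  obtain ⟨i, hi⟩ := this
  by_cases h1 : i ∈ E
  · have h2 : i ∉ E' := fun h2 => hi ⟨fun _ => h2, fun _ => h1⟩
    exact key E E' i h1 h2
  · have h2 : i ∈ E' := by
      by_contra h2
      exact hi ⟨fun h3 => absurd h3 h1, fun h3 => absurd h3 h2⟩
    rw [norm_sub_rev]
    exact key E' E i h2 h1

/-- combination of `g` with coefficients `t` on the block `[a, b)`. -/
noncomputable def blk (t : ℕ → ℝ) (a b : ℕ) : ℕ →₀ ℝ := ∑ k ∈ Finset.Ico a b, Finsupp.single k (t k)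

theorem comb_blk (v : ℕ → ℝ) (t : ℕ → ℝ) (a b : ℕ) :
    Finsupp.linearCombination ℝ v (blk t a b) = ∑ k ∈ Finset.Ico a b, t k * v k := by
  unfold blk
  rw [map_sum]
  apply Finset.sum_congr rfl
  intro k _
  simp

theorem blk_sub (t : ℕ → ℝ) (a b d : ℕ) (h1 : a ≤ b) (h2 : b ≤ d) :
    blk t a d - blk t a b = blk t b d := by
  unfold blk
  rw [sub_eq_iff_eq_add, add_comm]
  exact (Finset.sum_Ico_consecutive _ h1 h2).symm

theorem bounded_partial (h : LatNorm g Nn c C)
    (hd : (Submodule.span ℝ (range g)).topologicalClosure = ⊤)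
    (F : StrongDual ℝ (StrongDual ℝ Y)) (n : ℕ) :
    ‖Finsupp.linearCombination ℝ g (blk (fun k => F (h.estar k)) 0 n)‖ ≤ C / c * ‖F‖ := by
  classical
  have hCc : 0 < C / c := div_pos h.C_pos h.hc
  apply norm_le_dual_bound ℝ _ (by positivity)
  intro φ
  obtain ⟨ψ, hψ, hψn⟩ := h.exists_trunc φ {k | k < n}
  have h1 : ψ = ∑ k ∈ Finset.range n, φ (g k) • h.estar k := by
    apply functional_ext hd
    intro j
    rw [hψ j, head_apply]
    rfl
  have h2 : φ (Finsupp.linearCombination ℝ g (blk (fun k => F (h.estar k)) 0 n)) = F ψ := by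
    rw [apply_comb, comb_blk, h1, map_sum, Finset.range_eq_Ico]
    apply Finset.sum_congr rfl
    intro k _
    rw [map_smul, smul_eq_mul, mul_comm]
  rw [h2]
  calc ‖F ψ‖ ≤ ‖F‖ * ‖ψ‖ := F.le_opNorm _
    _ ≤ ‖F‖ * (C / c * ‖φ‖) :=
        mul_le_mul_of_nonneg_left hψn (norm_nonneg (F : StrongDual ℝ (StrongDual ℝ Y)))
    _ = C / c * ‖F‖ * ‖φ‖ := by ring

theorem reflexive (h : LatNorm g Nn c C) [CompleteSpace Y] [SeparableSpace (StrongDual ℝ Y)]
    (hd : (Submodule.span ℝ (range g)).topologicalClosure = ⊤)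
    (hgrow : ∀ (t : ℕ → ℝ) (n : ℕ → ℕ), StrictMono n → ∀ δ > 0,
      (∀ i, δ ≤ Nn (∑ k ∈ Finset.Ico (n i) (n (i + 1)), Finsupp.single k (t k))) →
      ∀ M : ℝ, ∃ m, M < Nn (∑ k ∈ Finset.range m, Finsupp.single k (t k))) :
    Function.Surjective (inclusionInDoubleDual ℝ Y) := by
  classical
  intro F
  set t : ℕ → ℝ := fun k => F (h.estar k) with ht
  have hCc : 0 < C / c := div_pos h.C_pos h.hc
  let y : ℕ → Y := fun n => Finsupp.linearCombination ℝ g (blk t 0 n)
  have hcauchy : CauchySeq y := by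
    rw [Metric.cauchySeq_iff']
    by_contra hcon
    push Not at hcon
    obtain ⟨ε, hε, hcon⟩ := hcon
    choose m hm1 hm2 using hcon
    have hsub : ∀ N, y (m N) - y N = Finsupp.linearCombination ℝ g (blk t N (m N)) := by
      intro N
      show Finsupp.linearCombination ℝ g (blk t 0 (m N)) - Finsupp.linearCombination ℝ g (blk t 0 N) = _
      rw [← map_sub, blk_sub t 0 N (m N) (Nat.zero_le _) (hm1 N)]
    have hlt : ∀ N, N < m N := by
      intro N
      rcases (hm1 N).eq_or_lt with h0 | h0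
      · exfalso
        have := hm2 N
        rw [← h0, dist_self] at this
        linarith
      · exact h0
    have hNn : ∀ N, ε / C ≤ Nn (blk t N (m N)) := by
      intro N
      rw [div_le_iff₀ h.C_pos]
      have h1 := hm2 N
      rw [dist_eq_norm, hsub] at h1
      have h2 := h.hup (blk t N (m N))
      linarith
    let nn : ℕ → ℕ := fun i => m^[i] 0
    have hnn : ∀ i, nn (i + 1) = m (nn i) := fun i => Function.iterate_succ_apply' m i 0
    have hmono : StrictMono nn := by
      apply strictMono_nat_of_lt_succ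
      intro i
      rw [hnn]
      exact hlt _
    obtain ⟨M, hM⟩ := hgrow t nn hmono (ε / C) (div_pos hε h.C_pos) (by
      intro i
      have := hNn (nn i)
      rw [← hnn] at this
      exact this) (C / c * ‖F‖ / c)
    have h1 : Nn (blk t 0 M) ≤ C / c * ‖F‖ / c :=
      le_trans (h.le_div _) (div_le_div_of_nonneg_right (h.bounded_partial hd F M) h.hc.le)
    rw [Finset.range_eq_Ico] at hM
    exact absurd hM (not_lt.mpr h1)
  obtain ⟨z, hz⟩ := cauchySeq_tendsto_of_complete hcauchy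
  refine ⟨z, ?_⟩
  symm
  apply ContinuousLinearMap.ext_on (s := range h.estar)
  · rw [Submodule.dense_iff_topologicalClosure_eq_top]
    exact h.shrinking hd
  · rintro _ ⟨j, rfl⟩
    rw [dual_def]
    have h1 : Tendsto (fun n => h.estar j (y n)) atTop (𝓝 (h.estar j z)) :=
      ((h.estar j).continuous.tendsto z).comp hz
    have h2 : Tendsto (fun n => h.estar j (y n)) atTop (𝓝 (t j)) := by
      apply tendsto_const_nhds.congr'
      filter_upwards [eventually_gt_atTop j] with n hn
      show t j = h.estar j (Finsupp.linearCombination ℝ g (blk t 0 n))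
      rw [apply_comb, comb_blk]
      simp only [estar_apply, mul_ite, mul_one, mul_zero]
      rw [Finset.sum_ite_eq' (Finset.Ico 0 n) j]
      simp [hn]
    exact tendsto_nhds_unique h2 h1

end LatNorm

end

end MP052
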